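import Pool.Agent.Y347.VL.Value

set_option autoImplicit false

/-!
# Linear variational sets modulo `n`
-/

namespace Pool.Agent.Y347.VL

open Function

/-- the residue fields of `ZMod n` have prime order, a prime factor of `n` -/
theorem residue_zmod {n : ℕ} (hn : 2 ≤ n) (M : Ideal (ZMod n)) (hM : M.IsMaximal) :
    (Nat.card (ZMod n ⧸ M)).Prime ∧ Nat.card (ZMod n ⧸ M) ∣ n := by
  haveI : NeZero n := ⟨by omega⟩
  haveI : Finite (ZMod n ⧸ M) := Finite.of_surjective _ Ideal.Quotient.mk_surjective
  letI : Field (ZMod n ⧸ M) := Ideal.Quotient.field M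
  obtain ⟨p, hp⟩ := CharP.exists (ZMod n ⧸ M)
  have hpp : p.Prime := by
    rcases CharP.char_is_prime_or_zero (ZMod n ⧸ M) p with h | h
    · exact h
    · subst h
      exfalso
      haveI : CharZero (ZMod n ⧸ M) := CharP.charP_to_charZero _
      exact not_injective_infinite_finite (Nat.cast : ℕ → ZMod n ⧸ M) Nat.cast_injective
  haveI : Fact p.Prime := ⟨hpp⟩
  have hpn : p ∣ n := by
    rw [← CharP.cast_eq_zero_iff (ZMod n ⧸ M) p n]
    have h1 : ((n : ZMod n) : ZMod n) = 0 := ZMod.natCast_self n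
    have h2 := congrArg (Ideal.Quotient.mk M) h1
    rw [map_natCast, map_zero] at h2
    exact h2
  have hcard : Nat.card (ZMod n ⧸ M) = p := by
    have hs : Surjective (ZMod.castHom (dvd_refl p) (ZMod n ⧸ M)) := by
      intro x
      obtain ⟨y, rfl⟩ := Ideal.Quotient.mk_surjective x
      refine ⟨((y.val : ℕ) : ZMod p), ?_⟩
      rw [map_natCast, ← map_natCast (Ideal.Quotient.mk M), ZMod.natCast_zmod_val]
    have hi : Injective (ZMod.castHom (dvd_refl p) (ZMod n ⧸ M)) := RingHom.injective _
    rw [← Nat.card_congr (Equiv.ofBijective _ ⟨hi, hs⟩), Nat.card_zmod]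
  rw [hcard]
  exact ⟨hpp, hpn⟩

theorem isLeast_zmod {n : ℕ} (hn : 2 ≤ n) : IsLeast (ResidueOrders (ZMod n)) n.minFac := by
  haveI : NeZero n := ⟨by omega⟩
  have hp : n.minFac.Prime := Nat.minFac_prime (by omega)
  haveI : Fact n.minFac.Prime := ⟨hp⟩
  constructor
  · let f : ZMod n →+* ZMod n.minFac := ZMod.castHom (Nat.minFac_dvd n) _
    have hf : Surjective f := ZMod.castHom_surjective _
    refine ⟨RingHom.ker f, RingHom.ker_isMaximal_of_surjective f hf, ?_⟩
    rw [Nat.card_congr (RingHom.quotientKerEquivOfSurjective hf).toEquiv, Nat.card_zmod]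
  · rintro c ⟨M, hM, rfl⟩
    obtain ⟨h1, h2⟩ := residue_zmod hn M hM
    exact Nat.minFac_le_of_dvd h1.two_le h2

theorem covered_prime {m p : ℕ} (hm : 2 ≤ m) (hp : p.Prime) : Covered m p := by
  rcases hp.eq_two_or_odd with h | h
  · right; left; omega
  · right; right; left
    refine ⟨h, ?_⟩
    rw [hp.minFac_eq]
    apply inRange_prime
    have := hp.two_le
    omega

theorem value_prime {m p : ℕ} (hp : p.Prime) :
    value m p = if m = 2 then p - 1 else if p = 2 then m - 1 else max m p + 1 := by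
  unfold value
  split_ifs with h1 h2 h3 h4
  · rfl
  · rfl
  · rw [max_eq_left h3]
  · exfalso
    rcases hp.eq_two_or_odd with h | h <;> omega
  · rw [max_eq_right (by omega)]

/-- **Modulo `n`.** -/
theorem isGreatest_zmod {m n : ℕ} (hm : 2 ≤ m) (hn : 2 ≤ n) :
    IsGreatest (Sizes (ZMod n) m n)
      (if m = 2 then n.minFac - 1 else if n.minFac = 2 then m - 1 else max m n.minFac + 1) := by
  haveI : NeZero n := ⟨by omega⟩
  have hp : n.minFac.Prime := Nat.minFac_prime (by omega)
  rw [← value_prime hp]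
  exact isGreatest_value hm (Nat.card_zmod n) (isLeast_zmod hn) (covered_prime hm hp)

end Pool.Agent.Y347.VL
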