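import Pool.Agent.H430R2.PermCubes.Defs

set_option autoImplicit false

/-!
# Linear families of permutation cubes
-/

namespace Pool.Agent.Y347.VL

/-- the cubes `C j` of order `n` are linear over the ring `R` with `n` elements: after relabelling
the coordinates (by `τ i`) and the values (by `σ j`) with the elements of `R` each of them is a
linear form with coefficients in `R` -/
def IsLinear (R : Type) [CommRing R] (m n k : ℕ) (C : Fin k → (Fin m → Fin n) → Fin n) : Prop :=
  ∃ (τ : Fin m → (Fin n ≃ R)) (σ : Fin k → (Fin n ≃ R)) (a : Fin k → Fin m → R),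
    ∀ j x, σ j (C j x) = ∑ i, a j i * τ i (x i)

/-- the numbers `k` for which there is a variational set of `k` cubes of dimension `m` and order
`n` which are linear over `R` -/
def Sizes (R : Type) [CommRing R] (m n : ℕ) : Set ℕ :=
  {k | ∃ C : Fin k → (Fin m → Fin n) → Fin n,
    Pool.Agent.H430R2.PermCubes.IsVariationalSet m n k C ∧ IsLinear R m n k C}

/-- the largest size of a linear variational set over a field with `q` elements -/
def value (m q : ℕ) : ℕ :=
  if m = 2 then q - 1
  else if q = 2 then m - 1
  else if q ≤ m then m + 1
  else if q % 2 = 0 ∧ (m = 3 ∨ m + 1 = q) then q + 2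
  else q + 1

end Pool.Agent.Y347.VL
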