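import Pool.Agent.Y347.VL.Field
import Pool.Agent.H625R3.PC2

set_option autoImplicit false

/-!
# Linear variational sets over fields of even order `q`, dimension `q - 1`
-/

namespace Pool.Agent.Y347.VL

open Function Pool.Agent.H430R2.PermCubes Pool.Agent.W865 Pool.Agent.H625R3.PC

variable {F : Type} [Field F] [Fintype F]

theorem lin_dual (h2 : (2 : F) = 0) (hq : 8 ≤ Fintype.card F) {m : ℕ}
    (hm : m + 1 = Fintype.card F) : LinOver m F (Option (Option F)) := by
  classical
  obtain ⟨b, hbS, hbspan, hbli⟩ := exists_linearIndependent F (full F)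
  have hspan : Submodule.span F b = V F := by rw [hbspan]; exact span_full h2 hq
  have hrank : Module.rank F (Submodule.span F b) = Cardinal.mk b := rank_span_set hbli
  have hrank2 : Module.rank F (V F) = m := by
    rw [← Module.finrank_eq_rank, finrank_V, ← hm]; simp
  rw [hspan, hrank2] at hrank
  have : Cardinal.mk (Fin m) = Cardinal.mk b := by rw [Cardinal.mk_fin, hrank]
  obtain ⟨eqv⟩ := Cardinal.eq.1 this
  refine LinOver.of (P := F → F) ev (fun i => (eqv i : F → F)) ?_ ?_ ?_
  · exact hbli.comp eqv eqv.injective
  · intro c j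
    exact (hbS (eqv j).2).2 c
  · intro e he v hv hz
    apply det h2 hm e he v _ hz
    rw [← hspan]
    refine Submodule.span_mono ?_ hv
    rintro _ ⟨j, rfl⟩
    exact (eqv j).2

end Pool.Agent.Y347.VL
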