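import Pool.Agent.H430R2.PermCubes.Three
import Pool.Agent.H430R2.PermCubes.Rootless
import Pool.Agent.W865.RangeT

set_option autoImplicit false

/-!
# Linear variational sets over fields: existence
-/

namespace Pool.Agent.Y347.VL

open Function Polynomial Pool.Agent.H430R2.PermCubes Pool.Agent.W865

/-- `κ` vectors of `F ^ m` without zero coordinates, every `m` of them independent -/
def LinOver (m : ℕ) (F : Type) [Field F] (κ : Type) : Prop :=
  ∃ A : κ → Fin m → F, (∀ c j, A c j ≠ 0) ∧ DetArc A

theorem LinOver.mono {m : ℕ} {F κ κ' : Type} [Field F] (f : κ' → κ) (hf : Injective f)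
    (h : LinOver m F κ) : LinOver m F κ' := by
  obtain ⟨A, h1, h2⟩ := h
  exact ⟨fun c => A (f c), fun c => h1 _, h2.comp f hf⟩

theorem LinOver.of {m : ℕ} {F P κ : Type} [Field F] [AddCommGroup P] [Module F P]
    (ev : κ → P →ₗ[F] F) (h : Fin m → P) (hli : LinearIndependent F h)
    (hne : ∀ c j, ev c (h j) ≠ 0)
    (hdet : ∀ e : Fin m → κ, Injective e → ∀ v ∈ Submodule.span F (Set.range h),
      (∀ i, ev (e i) v = 0) → v = 0) : LinOver m F κ := by
  refine ⟨fun c j => ev c (h j), hne, ?_⟩
  intro e he hd
  obtain ⟨x, hx0, hx⟩ := Matrix.exists_mulVec_eq_zero_iff.mpr hd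
  apply hx0
  have hz : ∑ j, x j • h j = 0 := by
    apply hdet e he
    · exact Submodule.sum_mem _ fun j _ => Submodule.smul_mem _ _
        (Submodule.subset_span ⟨j, rfl⟩)
    · intro i
      have h2 := congrFun hx i
      rw [Matrix.mulVec, dotProduct, Pi.zero_apply] at h2
      rw [← h2, map_sum]
      apply Finset.sum_congr rfl
      intro j _
      rw [map_smul, smul_eq_mul, Matrix.of_apply, mul_comm]
  have := Fintype.linearIndependent_iff.1 hli x hz
  funext j
  exact this j

/-- Reed-Solomon -/
theorem lin_rs {F : Type} [Field F] [Fintype F] {m : ℕ} (hm : 4 ≤ m) (hq : 4 ≤ Fintype.card F) :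
    LinOver m F (Option F) := by
  classical
  obtain ⟨b, hbS, hbspan, hbli⟩ := exists_linearIndependent F (rootless F (m - 1))
  have hdeg : rootless F (m - 1) ⊆ (degreeLT F m : Set F[X]) := by
    rintro p ⟨h1, h2, -⟩
    have hp0 : p ≠ 0 := by rintro rfl; simp at h2
    change p ∈ degreeLT F m
    rw [mem_degreeLT, ← natDegree_lt_iff_degree_lt hp0]
    omega
  have hspan : Submodule.span F b = degreeLT F m := by
    rw [hbspan]
    apply le_antisymm
    · exact Submodule.span_le.2 hdeg
    · rw [degreeLT_eq_span_X_pow]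
      apply Submodule.span_le.2
      intro x hx
      simp only [Finset.coe_image, Set.mem_image, Finset.coe_range, Set.mem_Iio] at hx
      obtain ⟨k, hk, rfl⟩ := hx
      exact span_rootless hq (by omega) k (by omega)
  have hrank : Module.rank F (Submodule.span F b) = Cardinal.mk b := rank_span_set hbli
  have hrank2 : Module.rank F (degreeLT F m) = m := by
    rw [(degreeLTEquiv F m).rank_eq]; simp
  rw [hspan, hrank2] at hrank
  have : Cardinal.mk (Fin m) = Cardinal.mk b := by rw [Cardinal.mk_fin, hrank]
  obtain ⟨eqv⟩ := Cardinal.eq.1 this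
  refine LinOver.of (P := F[X]) (evp (m - 1)) (fun i => (eqv i : F[X])) ?_ ?_ ?_
  · exact hbli.comp eqv eqv.injective
  · intro c j
    obtain ⟨h1, h2, h3⟩ := hbS (eqv j).2
    rcases c with _ | t
    · exact h2
    · exact h3 t
  · intro e he v hv hz
    apply evp_det (by omega) e he v _ hz
    rw [← hspan]
    refine Submodule.span_mono ?_ hv
    rintro _ ⟨j, rfl⟩
    exact (eqv j).2

end Pool.Agent.Y347.VL
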