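import Pool.Agent.Y347.VL.Field

set_option autoImplicit false

/-!
# Linear variational sets over fields: dimension three
-/

namespace Pool.Agent.Y347.VL

open Function Pool.Agent.H430R2.PermCubes Pool.Agent.W865

variable {F : Type} [Field F]

theorem lin_odd [Finite F] (h2 : (2 : F) ≠ 0) : LinOver 3 F (Option F) := by
  obtain ⟨g, hg⟩ : ∃ g : F, ¬ IsSquare g := FiniteField.exists_nonsquare (by
    intro h
    apply h2
    have : CharP F 2 := by
      have := ringChar.charP F
      rw [h] at this
      exact this
    exact CharTwo.two_eq_zero)
  refine LinOver.of (P := Fin 3 → F) evq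
    ![![-g, 0, 1], ![1 - g, -2, 1], ![1 - g, 2, 1]] ?_ ?_ ?_
  · rw [Fintype.linearIndependent_iff]
    intro x hx
    have e0 := congrFun hx 0
    have e1 := congrFun hx 1
    have e2 := congrFun hx 2
    simp [Fin.sum_univ_three] at e0 e1 e2
    have f1 : x 1 = x 2 := by
      have : 2 * (x 2 - x 1) = 0 := by linear_combination e1
      have := (mul_eq_zero.1 this).resolve_left h2
      linear_combination -this
    have f2 : x 1 + x 2 = 0 := by linear_combination e0 + g * e2
    have f3 : x 1 = 0 := by
      have : 2 * x 1 = 0 := by linear_combination f2 + f1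
      exact (mul_eq_zero.1 this).resolve_left h2
    have f4 : x 2 = 0 := by rw [← f1, f3]
    have f5 : x 0 = 0 := by
      rw [f3, f4] at e2
      linear_combination e2
    intro i
    fin_cases i
    · exact f5
    · exact f3
    · exact f4
  · have key : ∀ t a : F, (t - a) ^ 2 - g ≠ 0 := by
      intro t a h
      exact hg ⟨t - a, by linear_combination -h⟩
    intro c j
    rcases c with _ | t
    · rw [evq_none]
      fin_cases j <;> simp
    · rw [evq_some]
      fin_cases j
      · intro h; apply key t 0; simp at h; linear_combination h
      · intro h; apply key t 1; simp at h; linear_combination h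
      · intro h; apply key t (-1); simp at h; linear_combination h
  · intro e he v _ hv
    exact evq_det e he v hv

theorem lin_even [Finite F] (h2 : (2 : F) = 0) {b : F} (hb0 : b ≠ 0) (hb1 : b ≠ 1) :
    LinOver 3 F (Option (Option F)) := by
  -- an element outside the image of `t ↦ t² + t`
  obtain ⟨c, hc⟩ : ∃ c : F, ∀ t : F, t ^ 2 + t ≠ c := by
    by_contra hcon
    push Not at hcon
    have hs : Surjective (fun t : F => t ^ 2 + t) := hcon
    have hi := Finite.injective_iff_surjective.2 hs
    have : (0 : F) = 1 := hi (by simp only; linear_combination -h2)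
    exact zero_ne_one this
  have hc' : ∀ t : F, t ^ 2 + t + c ≠ 0 := by
    intro t h
    apply hc t
    linear_combination h - c * h2
  set c' := c + (b ^ 2 + b) with hc'def
  have hc'' : ∀ t : F, t ^ 2 + t + c' ≠ 0 := by
    intro t h
    apply hc' (t + b)
    rw [hc'def] at h
    linear_combination h + t * b * h2
  have hb : ∀ t : F, t ^ 2 + b * t + b ^ 2 * c ≠ 0 := by
    intro t h
    apply hc' (t / b)
    field_simp
    linear_combination h
  have hbb : b ^ 2 + b ≠ 0 := by
    intro h
    have : b * (b - 1) = 0 := by linear_combination h - b * h2
    rcases mul_eq_zero.1 this with h | h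
    · exact hb0 h
    · exact hb1 (by linear_combination h)
  refine LinOver.of (P := Fin 3 → F) evq' ![![c, 1, 1], ![c', 1, 1], ![b ^ 2 * c, b, 1]]
    ?_ ?_ ?_
  · rw [Fintype.linearIndependent_iff]
    intro x hx
    have e0 := congrFun hx 0
    have e1 := congrFun hx 1
    have e2 := congrFun hx 2
    simp [Fin.sum_univ_three] at e0 e1 e2
    have f2 : x 2 = 0 := by
      have : (b - 1) * x 2 = 0 := by linear_combination e1 - e2
      exact (mul_eq_zero.1 this).resolve_left (sub_ne_zero.2 hb1)
    rw [f2] at e0 e2
    have f1 : x 1 = 0 := by
      have : (b ^ 2 + b) * x 1 = 0 := by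
        rw [hc'def] at e0
        linear_combination e0 - c * e2
      exact (mul_eq_zero.1 this).resolve_left hbb
    rw [f1] at e2
    have f0 : x 0 = 0 := by linear_combination e2
    intro i
    fin_cases i
    · exact f0
    · exact f1
    · exact f2
  · intro d j
    rcases d with _ | d
    · rw [evq'_none]
      fin_cases j <;> simp [hb0]
    rcases d with _ | t
    · change evq none _ ≠ 0
      rw [evq_none]
      fin_cases j <;> simp
    · change evq (some t) _ ≠ 0
      rw [evq_some]
      fin_cases j
      · intro h; apply hc' t; simp at h; linear_combination h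
      · intro h; apply hc'' t; simp at h; linear_combination h
      · intro h; apply hb t; simp at h; linear_combination h
  · intro e he v _ hv
    by_cases hnone : ∃ i, e i = none
    · obtain ⟨i, hi⟩ := hnone
      have hvi := hv i
      rw [hi, evq'_none] at hvi
      -- the two other indices
      have hoth : ∀ j, j ≠ i → ∃ d, e j = some d := by
        intro j hj
        rcases hd : e j with _ | d
        · exact absurd (he (hd.trans hi.symm)) hj
        · exact ⟨d, rfl⟩
      have h3 : ∀ i : Fin 3, ∃ j k : Fin 3, j ≠ i ∧ k ≠ i ∧ j ≠ k := by decide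
      obtain ⟨j, k, hji, hki, hjk⟩ := h3 i
      obtain ⟨d, hd⟩ := hoth j hji
      obtain ⟨d', hd'⟩ := hoth k hki
      have hdd : d ≠ d' := by
        rintro rfl
        exact hjk (he (hd.trans hd'.symm))
      have h1 := hv j
      have h3 := hv k
      rw [hd] at h1
      rw [hd'] at h3
      exact nucleus_det h2 hdd h1 h3 hvi
    · push Not at hnone
      have hsome : ∀ i, ∃ d, e i = some d := by
        intro i
        rcases hd : e i with _ | d
        · exact absurd hd (hnone i)
        · exact ⟨d, rfl⟩
      choose e' he' using hsome
      apply evq_det e' (fun i j hij => he (by rw [he' i, he' j, hij]))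
      intro i
      have := hv i
      rw [he' i] at this
      exact this

end Pool.Agent.Y347.VL
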