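import Pool.Agent.Y347.VL.Defs
import Pool.Agent.Y347.VL.Field

set_option autoImplicit false

/-!
# Linear variational sets over finite commutative rings: reduction to the residue fields
-/

namespace Pool.Agent.Y347.VL

open Function Pool.Agent.H430R2.PermCubes Pool.Agent.W865

/-- the algebraic form of a linear variational set -/
def UnitSet (m : ℕ) (R : Type) [CommRing R] (κ : Type) : Prop :=
  ∃ A : κ → Fin m → R, (∀ c j, IsUnit (A c j)) ∧
    ∀ e : Fin m → κ, Injective e → IsUnit (Matrix.det (Matrix.of fun i => A (e i)))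

theorem unitSet_iff_linOver {m : ℕ} {F κ : Type} [Field F] : UnitSet m F κ ↔ LinOver m F κ := by
  unfold UnitSet LinOver DetArc
  simp only [isUnit_iff_ne_zero]

theorem mem_sizes_iff {m n k : ℕ} {R : Type} [CommRing R] [Finite R] (hn : Nat.card R = n) :
    k ∈ Sizes R m n ↔ UnitSet m R (Fin k) := by
  classical
  haveI : Fintype R := Fintype.ofFinite R
  constructor
  · rintro ⟨C, ⟨hC1, hC2⟩, τ, σ, a, h⟩
    refine ⟨a, ?_, ?_⟩
    · intro j i
      obtain ⟨t, ht⟩ := (hC1 j i (fun l => (τ l).symm 0)).2 ((σ j).symm 1)
      have h1 := h j (update (fun l => (τ l).symm 0) i t)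
      simp only at ht
      rw [ht, Equiv.apply_symm_apply, Finset.sum_eq_single i] at h1
      · rw [update_self] at h1
        exact IsUnit.of_mul_eq_one _ h1.symm
      · intro l _ hl
        rw [update_of_ne hl, Equiv.apply_symm_apply, mul_zero]
      · intro hi
        exact absurd (Finset.mem_univ i) hi
    · intro e he
      rw [← Matrix.isUnit_iff_isUnit_det, ← Matrix.mulVec_surjective_iff_isUnit]
      intro y
      obtain ⟨x, hx⟩ := (hC2 e he).2 (fun r => (σ (e r)).symm (y r))
      refine ⟨fun i => τ i (x i), ?_⟩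
      funext r
      have h1 := h (e r) x
      have h2 := congrFun hx r
      simp only at h2
      rw [h2, Equiv.apply_symm_apply] at h1
      rw [h1]
      rfl
  · rintro ⟨A, hA1, hA2⟩
    have hcard : Fintype.card R = n := by rw [← hn, Nat.card_eq_fintype_card]
    let β : R ≃ Fin n := Fintype.equivFinOfCardEq hcard
    refine ⟨fun j x => β (∑ i, A j i * β.symm (x i)), ⟨?_, ?_⟩, fun _ => β.symm, fun _ => β.symm,
      A, fun j x => by rw [Equiv.symm_apply_apply]⟩
    · intro j i x
      have e1 : ∀ t : Fin n, β (∑ l, A j l * β.symm (update x i t l)) =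
          β (A j i * β.symm t + ∑ l ∈ Finset.univ.erase i, A j l * β.symm (x l)) := by
        intro t
        rw [← Finset.add_sum_erase _ _ (Finset.mem_univ i), update_self]
        congr 2
        apply Finset.sum_congr rfl
        intro l hl
        rw [update_of_ne (Finset.ne_of_mem_erase hl)]
      simp only [e1]
      have hu : Bijective (fun t : R => A j i * t) := by
        obtain ⟨u, hu⟩ := hA1 j i
        rw [← hu]
        exact (Units.mulLeft u).bijective
      exact β.bijective.comp ((Equiv.addRight _).bijective.comp (hu.comp β.symm.bijective))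
    · intro e he
      have hdet := hA2 e he
      rw [← Matrix.isUnit_iff_isUnit_det] at hdet
      have hb : Bijective (fun y : Fin m → R => (Matrix.of fun i => A (e i)).mulVec y) := by
        rw [← Finite.injective_iff_bijective, Finite.injective_iff_surjective]
        exact Matrix.mulVec_surjective_iff_isUnit.2 hdet
      have e1 : Bijective (fun (x : Fin m → Fin n) (i : Fin m) => β.symm (x i)) :=
        (Equiv.arrowCongr (Equiv.refl (Fin m)) β.symm).bijective
      have e2 : Bijective (fun (x : Fin m → R) (i : Fin m) => β (x i)) :=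
        (Equiv.arrowCongr (Equiv.refl (Fin m)) β).bijective
      exact e2.comp (hb.comp e1)

/-- reduction modulo an ideal -/
theorem UnitSet.map {m : ℕ} {R S κ : Type} [CommRing R] [CommRing S] (f : R →+* S)
    (h : UnitSet m R κ) : UnitSet m S κ := by
  obtain ⟨A, h1, h2⟩ := h
  refine ⟨fun c j => f (A c j), fun c j => (h1 c j).map f, ?_⟩
  intro e he
  have h3 := (h2 e he).map f
  rw [RingHom.map_det] at h3
  exact h3

/-- a unit modulo all maximal ideals is a unit -/
theorem isUnit_of_forall {R : Type} [CommRing R] {x : R}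
    (h : ∀ M : Ideal R, M.IsMaximal → IsUnit (Ideal.Quotient.mk M x)) : IsUnit x := by
  by_contra hx
  obtain ⟨M, hM, hxM⟩ := exists_max_ideal_of_mem_nonunits hx
  have h1 := h M hM
  rw [Ideal.Quotient.eq_zero_iff_mem.2 hxM] at h1
  haveI : Nontrivial (R ⧸ M) := Ideal.Quotient.nontrivial_iff.2 hM.ne_top
  exact not_isUnit_zero h1

/-- **Local-global principle**. -/
theorem unitSet_iff {m : ℕ} {R κ : Type} [CommRing R] [Finite R] :
    UnitSet m R κ ↔ ∀ M : Ideal R, M.IsMaximal → UnitSet m (R ⧸ M) κ := by
  classical
  constructor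
  · intro h M _
    exact h.map (Ideal.Quotient.mk M)
  · intro h
    haveI : Finite (Ideal R) :=
      Finite.of_injective (fun I : Ideal R => (I : Set R)) SetLike.coe_injective
    let ι := {M : Ideal R // M.IsMaximal}
    have hcop : Pairwise fun i j : ι => IsCoprime (i : Ideal R) (j : Ideal R) := by
      intro i j hij
      rw [Ideal.isCoprime_iff_sup_eq]
      exact Ideal.IsMaximal.coprime_of_ne i.2 j.2 (fun h => hij (Subtype.ext h))
    choose A hA1 hA2 using fun M : ι => h M.1 M.2
    have hl : ∀ (c : κ) (j : Fin m), ∃ r : R, ∀ M : ι, Ideal.Quotient.mk M.1 r = A M c j := by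
      intro c j
      obtain ⟨r, hr⟩ := Ideal.pi_quotient_surjective hcop (fun M => A M c j)
      exact ⟨r, hr⟩
    choose B hB using hl
    refine ⟨B, ?_, ?_⟩
    · intro c j
      apply isUnit_of_forall
      intro M hM
      rw [hB c j ⟨M, hM⟩]
      exact hA1 ⟨M, hM⟩ c j
    · intro e he
      apply isUnit_of_forall
      intro M hM
      rw [RingHom.map_det]
      have h3 := hA2 ⟨M, hM⟩ e he
      convert h3 using 2
      ext i j
      exact hB (e i) j ⟨M, hM⟩

end Pool.Agent.Y347.VL
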