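import Pool.Agent.Y347.VL.Field

set_option autoImplicit false

/-!
# Linear variational sets over fields: `m + 1` cubes, and two dimensions
-/

namespace Pool.Agent.Y347.VL

open Function Pool.Agent.W865

variable {F : Type} [Field F]

/-- an element different from two given ones -/
theorem exists_ne_two [Fintype F] (hq : 3 ≤ Fintype.card F) (a b : F) : ∃ x : F, x ≠ a ∧ x ≠ b := by
  classical
  have : (({a, b} : Finset F)ᶜ).Nonempty := by
    rw [← Finset.card_pos, Finset.card_compl]
    have : ({a, b} : Finset F).card ≤ 2 := Finset.card_le_two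
    omega
  obtain ⟨x, hx⟩ := this
  simp only [Finset.mem_compl, Finset.mem_insert, Finset.mem_singleton, not_or] at hx
  exact ⟨x, hx.1, hx.2⟩

/-- nonzero values with a given sum -/
theorem fill [Fintype F] (hq : 3 ≤ Fintype.card F) {ι : Type} [DecidableEq ι] (T : Finset ι) :
    2 ≤ T.card → ∀ c : F, ∃ z : ι → F, (∀ i ∈ T, z i ≠ 0) ∧ ∑ i ∈ T, z i = c := by
  induction T using Finset.induction_on with
  | empty => intro h; simp at h
  | insert a T ha ih =>
    intro h c
    rw [Finset.card_insert_of_notMem ha] at h
    rcases Nat.lt_or_ge T.card 2 with h2 | h2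
    · have h1 : T.card = 1 := by omega
      obtain ⟨b, rfl⟩ := Finset.card_eq_one.1 h1
      obtain ⟨x, hx0, hxc⟩ := exists_ne_two hq 0 c
      have hab : a ≠ b := by simpa using ha
      refine ⟨fun i => if i = a then x else c - x, ?_, ?_⟩
      · intro i hi
        simp only [Finset.mem_insert, Finset.mem_singleton] at hi
        rcases hi with rfl | rfl
        · simpa using hx0
        · simp only [hab.symm, if_false]
          exact sub_ne_zero.2 (Ne.symm hxc)
      · rw [Finset.sum_insert ha, Finset.sum_singleton]
        simp [hab.symm]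
    · obtain ⟨z, hz1, hz2⟩ := ih h2 (c - 1)
      refine ⟨fun i => if i = a then 1 else z i, ?_, ?_⟩
      · intro i hi
        rw [Finset.mem_insert] at hi
        by_cases hia : i = a
        · simp [hia]
        · simp only [hia, if_false]
          exact hz1 i (hi.resolve_left hia)
      · rw [Finset.sum_insert ha]
        have : ∑ i ∈ T, (if i = a then (1 : F) else z i) = ∑ i ∈ T, z i := by
          apply Finset.sum_congr rfl
          intro i hi
          have : i ≠ a := fun h => ha (h ▸ hi)
          simp [this]
        rw [this, hz2]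
        simp

/-- the vectors without zero coordinate of coordinate sum zero -/
def full (F : Type) [Field F] (N : ℕ) : Set (Fin N → F) := {z | (∀ i, z i ≠ 0) ∧ ∑ i, z i = 0}

theorem diff_mem [Fintype F] (hq : 3 ≤ Fintype.card F) {N : ℕ} (hN : 4 ≤ N) (i j : Fin N)
    (hij : i ≠ j) :
    (Pi.single i 1 - Pi.single j 1 : Fin N → F) ∈ Submodule.span F (full F N) := by
  classical
  obtain ⟨t, ht0, ht1⟩ := exists_ne_two hq 0 (1 : F)
  have hcard : 2 ≤ ((Finset.univ.erase i).erase j).card := by
    rw [Finset.card_erase_of_mem (Finset.mem_erase.2 ⟨hij.symm, Finset.mem_univ _⟩),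
      Finset.card_erase_of_mem (Finset.mem_univ _), Finset.card_univ, Fintype.card_fin]
    omega
  obtain ⟨z, hz1, hz2⟩ := fill hq ((Finset.univ.erase i).erase j) hcard (-(1 + t))
  have hsum : ∀ w : Fin N → F, ∑ l, w l = w i + (w j +
      ∑ l ∈ (Finset.univ.erase i).erase j, w l) := by
    intro w
    rw [← Finset.add_sum_erase _ w (Finset.mem_univ i),
      ← Finset.add_sum_erase _ w (Finset.mem_erase.2 ⟨hij.symm, Finset.mem_univ j⟩)]
  have mk : ∀ s s' : F, s ≠ 0 → s' ≠ 0 → s + s' = 1 + t →
      (fun l => if l = i then s else if l = j then s' else z l) ∈ full F N := by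
    intro s s' hs hs' hss
    refine ⟨?_, ?_⟩
    · intro l
      by_cases h1 : l = i
      · simpa [h1] using hs
      by_cases h2 : l = j
      · simp only [h1, if_false, h2, if_true]
        rw [if_neg (by rw [h2] at h1; exact h1)]
        exact hs'
      · simp only [h1, h2, if_false]
        exact hz1 l (Finset.mem_erase.2 ⟨h2, Finset.mem_erase.2 ⟨h1, Finset.mem_univ _⟩⟩)
    · rw [hsum]
      have e : ∑ l ∈ (Finset.univ.erase i).erase j,
          (if l = i then s else if l = j then s' else z l) =
          ∑ l ∈ (Finset.univ.erase i).erase j, z l := by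
        apply Finset.sum_congr rfl
        intro l hl
        have h2 : l ≠ j := Finset.ne_of_mem_erase hl
        have h1 : l ≠ i := Finset.ne_of_mem_erase (Finset.mem_of_mem_erase hl)
        simp [h1, h2]
      simp only [e, if_true, hij.symm, if_false, hz2]
      linear_combination hss
  have m1 := Submodule.subset_span (R := F) (mk 1 t one_ne_zero ht0 rfl)
  have m2 := Submodule.subset_span (R := F) (mk t 1 ht0 one_ne_zero (add_comm _ _))
  have h := Submodule.smul_mem _ ((1 - t)⁻¹) (Submodule.sub_mem _ m1 m2)
  convert h using 1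
  have h1t : (1 - t) ≠ 0 := sub_ne_zero.2 (Ne.symm ht1)
  funext l
  simp only [Pi.sub_apply, Pi.smul_apply, smul_eq_mul, Pi.single_apply]
  by_cases h1 : l = i
  · have h2 : l ≠ j := by rw [h1]; exact hij
    simp [h1, hij]
    field_simp
  · by_cases h2 : l = j
    · rw [h2]
      simp only [hij.symm, if_false, if_true]
      field_simp
      ring
    · simp [h1, h2]

theorem span_full [Fintype F] (hq : 3 ≤ Fintype.card F) {m : ℕ} (hm : 3 ≤ m)
    (z : Fin (m + 1) → F) (hz : ∑ i, z i = 0) : z ∈ Submodule.span F (full F (m + 1)) := by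
  classical
  have e : z = ∑ i, z i • (Pi.single i 1 - Pi.single 0 1 : Fin (m + 1) → F) := by
    funext l
    rw [Finset.sum_apply]
    simp only [Pi.smul_apply, Pi.sub_apply, Pi.single_apply, smul_eq_mul, mul_sub, mul_ite,
      mul_one, mul_zero, Finset.sum_sub_distrib]
    by_cases h : l = 0
    · simp [h, hz]
    · simp [h]
  rw [e]
  apply Submodule.sum_mem
  intro i _
  apply Submodule.smul_mem
  by_cases hi : i = 0
  · rw [hi, sub_self]; exact Submodule.zero_mem _
  · exact diff_mem hq (by omega) i 0 hi

/-- `m + 1` linear cubes in every dimension `m ≥ 3` -/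
theorem lin_succ [Fintype F] (hq : 3 ≤ Fintype.card F) {m : ℕ} (hm : 3 ≤ m) :
    LinOver m F (Fin (m + 1)) := by
  classical
  obtain ⟨b, hbS, hbspan, hbli⟩ := exists_linearIndependent F (full F (m + 1))
  let L : (Fin (m + 1) → F) →ₗ[F] F :=
    { toFun := fun z => ∑ i, z i
      map_add' := by intro x y; simp [Finset.sum_add_distrib]
      map_smul' := by intro x y; simp [Finset.mul_sum] }
  have hL : ∀ z, L z = ∑ i, z i := fun _ => rfl
  have hspan : Submodule.span F b = LinearMap.ker L := by
    rw [hbspan]
    apply le_antisymm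
    · apply Submodule.span_le.2
      intro z hz
      exact hz.2
    · intro z hz
      exact span_full hq hm z hz
  have hrk : Module.finrank F (LinearMap.ker L) = m := by
    have h1 := LinearMap.finrank_range_add_finrank_ker L
    have h2 : LinearMap.range L = ⊤ := by
      rw [LinearMap.range_eq_top]
      intro c
      refine ⟨Pi.single 0 c, ?_⟩
      rw [hL]
      simp
    rw [h2, finrank_top, Module.finrank_self, Module.finrank_fin_fun] at h1
    omega
  have hrank : Module.rank F (Submodule.span F b) = Cardinal.mk b := rank_span_set hbli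
  have hrank2 : Module.rank F (LinearMap.ker L) = m := by
    rw [← Module.finrank_eq_rank, hrk]
  rw [hspan, hrank2] at hrank
  have : Cardinal.mk (Fin m) = Cardinal.mk b := by rw [Cardinal.mk_fin, hrank]
  obtain ⟨eqv⟩ := Cardinal.eq.1 this
  refine LinOver.of (P := Fin (m + 1) → F) (fun c => LinearMap.proj c)
    (fun i => (eqv i : Fin (m + 1) → F)) ?_ ?_ ?_
  · exact hbli.comp eqv eqv.injective
  · intro c j
    exact (hbS (eqv j).2).1 c
  · intro e he v hv hz
    have hv0 : ∑ i, v i = 0 := by
      have : v ∈ LinearMap.ker L := by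
        rw [← hspan]
        refine Submodule.span_mono ?_ hv
        rintro _ ⟨j, rfl⟩
        exact (eqv j).2
      exact this
    -- only one coordinate is missing
    have hc : (Finset.univ.image e)ᶜ.card = 1 := by
      rw [Finset.card_compl, Finset.card_image_of_injective _ he, Finset.card_univ,
        Fintype.card_fin, Fintype.card_fin]
      omega
    obtain ⟨a, ha⟩ := Finset.card_eq_one.1 hc
    have hz' : ∀ l, l ≠ a → v l = 0 := by
      intro l hl
      have : l ∈ Finset.univ.image e := by
        by_contra h
        have : l ∈ (Finset.univ.image e)ᶜ := Finset.mem_compl.2 h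
        rw [ha, Finset.mem_singleton] at this
        exact hl this
      obtain ⟨i, -, rfl⟩ := Finset.mem_image.1 this
      exact hz i
    have hva : v a = 0 := by
      rw [← hv0]
      exact (Finset.sum_eq_single a (fun l _ hl => hz' l hl)
        (fun h => absurd (Finset.mem_univ a) h)).symm
    funext l
    by_cases h : l = a
    · rw [h, hva]; rfl
    · rw [hz' l h]; rfl

/-- two dimensions -/
theorem lin_two : LinOver 2 F {x : F // x ≠ 0} := by
  refine ⟨fun c => ![1, c.1], ?_, ?_⟩
  · intro c j
    fin_cases j
    · simp
    · simpa using c.2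
  · intro f hf
    rw [Matrix.det_fin_two]
    simp only [Matrix.of_apply, Matrix.cons_val_zero, Matrix.cons_val_one]
    intro h
    have h1 : f 0 = f 1 := by
      apply Subtype.ext
      have : (f 1).1 = (f 0).1 := by simpa [sub_eq_zero] using h
      exact this.symm
    exact absurd (hf h1) (by decide)

end Pool.Agent.Y347.VL
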