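import Pool.Agent.Y347.VL.Field
import Pool.Agent.H430R2.PermCubes.Upper

set_option autoImplicit false

/-!
# Linear variational sets over fields: upper bounds
-/

namespace Pool.Agent.Y347.VL

open Function Pool.Agent.H430R2.PermCubes Pool.Agent.W865

variable {F : Type} [Field F] [Fintype F]

/-- an arc is an orthogonal array of index one -/
theorem isArray_of_detArc {m k : ℕ} {v : Fin k → Fin m → F} (hv : DetArc v) :
    ∃ C : Fin k → (Fin m → Fin (Fintype.card F)) → Fin (Fintype.card F),
      IsArray m (Fintype.card F) k C := by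
  classical
  let β := Fintype.equivFin F
  refine ⟨fun j x => β (∑ i, v j i * β.symm (x i)), ?_⟩
  intro e he
  have hdet := hv e he
  have hb : Bijective (fun y : Fin m → F => (Matrix.of fun i => v (e i)).mulVec y) := by
    rw [← Finite.injective_iff_bijective]
    exact Matrix.mulVec_injective_iff_isUnit.2
      ((Matrix.isUnit_iff_isUnit_det _).2 (isUnit_iff_ne_zero.2 hdet))
  have e1 : Bijective (fun (x : Fin m → Fin (Fintype.card F)) (i : Fin m) => β.symm (x i)) :=
    (Equiv.arrowCongr (Equiv.refl (Fin m)) β.symm).bijective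
  have e2 : Bijective (fun (x : Fin m → F) (i : Fin m) => β (x i)) :=
    (Equiv.arrowCongr (Equiv.refl (Fin m)) β).bijective
  exact e2.comp (hb.comp e1)

/-- two elements: fewer than `m` vectors -/
theorem upper_F2 {m k : ℕ} (hm : 2 ≤ m) (hq : Fintype.card F = 2) (v : Fin k → Fin m → F)
    (hne : ∀ c j, v c j ≠ 0) (hv : DetArc v) : k ≤ m - 1 := by
  classical
  by_contra hcon
  have hk : m ≤ k := by omega
  have hone : ∀ x : F, x ≠ 0 → x = 1 := by
    intro x hx
    by_contra h1
    have : ({0, 1, x} : Finset F).card ≤ Fintype.card F := Finset.card_le_univ _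
    rw [hq, Finset.card_insert_of_notMem (by simp [Ne.symm hx]),
      Finset.card_insert_of_notMem (by simp [Ne.symm h1]), Finset.card_singleton] at this
    omega
  apply hv (Fin.castLE hk) (Fin.castLE_injective hk)
  apply Matrix.det_zero_of_row_eq (i := ⟨0, by omega⟩) (j := ⟨1, by omega⟩)
  · intro h; simp [Fin.ext_iff] at h
  · funext j
    simp only [Matrix.of_apply]
    rw [hone _ (hne _ j), hone _ (hne _ j)]

/-- two dimensions -/
theorem upper_two {k : ℕ} (v : Fin k → Fin 2 → F)
    (hne : ∀ c j, v c j ≠ 0) (hv : DetArc v) : k ≤ Fintype.card F - 1 := by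
  classical
  have h1 : Fintype.card F - 1 = Fintype.card Fˣ := (Fintype.card_units (α := F)).symm
  rw [h1, ← Fintype.card_fin k]
  apply Fintype.card_le_of_injective (fun c => Units.mk0 (v c 1 / v c 0)
    (div_ne_zero (hne c 1) (hne c 0)))
  intro c d hcd
  by_contra hne'
  have h2 : v c 1 / v c 0 = v d 1 / v d 0 := by
    have := congrArg Units.val hcd
    simpa using this
  rw [div_eq_div_iff (hne c 0) (hne d 0)] at h2
  have hinj : Injective ![c, d] := by
    intro i j hij
    fin_cases i <;> fin_cases j <;> simp_all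
  apply hv ![c, d] hinj
  rw [Matrix.det_fin_two]
  simp only [Matrix.of_apply, Matrix.cons_val_zero, Matrix.cons_val_one]
  linear_combination -h2

/-- the range of dimensions in which the bound is known for all fields of odd order -/
def InRange (p q m : ℕ) : Prop :=
  m ≤ 3 ∨ q ≤ m + 2 ∨ (2 * p - 3) * m ≤ (p - 2) * (q + 6) + 2 ∨
    (2 * p - 3) * (q + 2 - m) ≤ (p - 2) * (q + 6) + 2

/-- for prime fields the range is everything -/
theorem inRange_prime {p m : ℕ} (hp : 3 ≤ p) : InRange p p m := by
  unfold InRange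
  rcases Nat.lt_or_ge p (m + 3) with h | h
  · right; left; omega
  rcases Nat.lt_or_ge m 4 with h4 | h4
  · left; omega
  right; right
  obtain ⟨P, rfl⟩ : ∃ P, p = P + 3 := ⟨p - 3, by omega⟩
  rw [show 2 * (P + 3) - 3 = 2 * P + 3 by omega, show P + 3 - 2 = P + 1 by omega]
  rcases le_total (2 * m) (P + 5) with h5 | h5
  · left; nlinarith
  · right
    have : 2 * (P + 3 + 2 - m) ≤ P + 5 := by omega
    nlinarith

/-- **fields of odd order**: at most `q + 1` vectors for `3 ≤ m ≤ q` in the range -/
theorem upper_odd {p m k : ℕ} [CharP F p] (hp3 : 3 ≤ p) (hm : 3 ≤ m)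
    (hmq : m ≤ Fintype.card F)
    (hr : InRange p (Fintype.card F) m) (v : Fin k → Fin m → F) (hv : DetArc v) :
    k ≤ Fintype.card F + 1 := by
  classical
  have hp : p.Prime := by
    rcases CharP.char_is_prime_or_zero F p with h1 | h1
    · exact h1
    · omega
  haveI : Fact p.Prime := ⟨hp⟩
  have hodd : Fintype.card F % 2 = 1 := by
    obtain ⟨n, _, hn⟩ := FiniteField.card F p
    rw [hn, ← Nat.odd_iff]
    exact (hp.odd_of_ne_two (by omega)).pow
  have hpq : p ≤ Fintype.card F := by
    obtain ⟨n, _, hn⟩ := FiniteField.card F p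
    rw [hn]
    calc p = p ^ 1 := (pow_one p).symm
      _ ≤ p ^ (n : ℕ) := Nat.pow_le_pow_right (by omega) n.pos
  by_contra hcon
  have hk : Fintype.card F + 2 ≤ k := by omega
  have h1 := hv.comp (Fin.castLE hk) (Fin.castLE_injective hk)
  rcases Nat.eq_or_lt_of_le hmq with h | h
  · obtain ⟨C, hC⟩ := isArray_of_detArc h1
    have := hC.le_add_one (by omega) (by omega)
    omega
  obtain ⟨w, hw⟩ := exists_dual_arc (k' := Fintype.card F + 2 - m) (by omega) h1
  -- dimension three, and its dual
  have three : ∀ (d : ℕ) (u : Fin (Fintype.card F + 2) → Fin d → F), DetArc u → d ≠ 3 := by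
    rintro d u hu rfl
    obtain ⟨C, hC⟩ := isArray_of_detArc hu
    have := hC.le_odd le_rfl (by omega) hodd
    omega
  have hm3 := three m _ h1
  have hw3 := three _ w hw
  have h4 : 4 ≤ m := by omega
  have h5 : m + 2 ≤ Fintype.card F := by omega
  -- dimension four, and its dual
  have four : 6 ≤ Fintype.card F →
      (2 * p - 3) * 4 ≤ (p - 2) * (Fintype.card F + 6) + 2 := by
    intro h6
    obtain ⟨P, rfl⟩ : ∃ P, p = P + 3 := ⟨p - 3, by omega⟩
    rw [show 2 * (P + 3) - 3 = 2 * P + 3 by omega, show P + 3 - 2 = P + 1 by omega]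
    nlinarith
  have hr' : (2 * p - 3) * m ≤ (p - 2) * (Fintype.card F + 6) + 2 ∨
    (2 * p - 3) * (Fintype.card F + 2 - m) ≤ (p - 2) * (Fintype.card F + 6) + 2 := by
    rcases hr with hr | hr | hr | hr
    · omega
    · right
      rw [show Fintype.card F + 2 - m = 4 by omega]
      exact four (by omega)
    · exact Or.inl hr
    · exact Or.inr hr
  have h3 : (2 * p - 3) * min m (Fintype.card F + 2 - m) ≤
      (p - 2) * (Fintype.card F + 6) + 2 := by
    rcases hr' with h | h
    · exact le_trans (Nat.mul_le_mul_left _ (min_le_left _ _)) h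
    · exact le_trans (Nat.mul_le_mul_left _ (min_le_right _ _)) h
  rcases le_total m (Fintype.card F + 2 - m) with h6 | h6
  · rw [min_eq_left h6] at h3
    exact no_detArcT hp3 h4 (by omega) h3 _ h1
  · rw [min_eq_right h6] at h3
    exact no_detArcT hp3 (by omega) (by omega) h3 _ hw

end Pool.Agent.Y347.VL
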