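import Pool.Agent.Y347.VL.Defs
import Pool.Agent.Y347.VL.Field3
import Pool.Agent.Y347.VL.Small
import Pool.Agent.Y347.VL.Dual
import Pool.Agent.Y347.VL.Upper
import Pool.Agent.Y347.VL.Ring
import Pool.Agent.H625R3.PC3
import Pool.Agent.H625R3.PC5

set_option autoImplicit false

/-!
# Linear variational sets: the values
-/

namespace Pool.Agent.Y347.VL

open Function Pool.Agent.H430R2.PermCubes Pool.Agent.W865

section
variable {F : Type} [Field F] [Fintype F]

theorem of_card {m k : ℕ} {κ : Type} [Fintype κ] (hk : k ≤ Fintype.card κ) (h : LinOver m F κ) :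
    LinOver m F (Fin k) :=
  h.mono (fun i => (Fintype.equivFin κ).symm (Fin.castLE hk i))
    ((Fintype.equivFin κ).symm.injective.comp (Fin.castLE_injective hk))

theorem eight_le (heven : Fintype.card F % 2 = 0) (h4 : 5 ≤ Fintype.card F) :
    8 ≤ Fintype.card F := by
  have hq : IsPrimePow (Fintype.card F) := FiniteField.isPrimePow_card F
  obtain ⟨p, e, hp, he, hpe⟩ := hq
  have hp' := hp.nat_prime
  have h2p : 2 ∣ p ^ e := by rw [hpe]; exact Nat.dvd_of_mod_eq_zero heven
  have hp2 : p = 2 := ((Nat.prime_dvd_prime_iff_eq Nat.prime_two hp').1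
    (Nat.prime_two.dvd_of_dvd_pow h2p)).symm
  subst hp2
  have he3 : 3 ≤ e := by
    by_contra hcon
    have : e = 1 ∨ e = 2 := by omega
    rcases this with rfl | rfl <;> omega
  calc 8 = 2 ^ 3 := by norm_num
    _ ≤ 2 ^ e := Nat.pow_le_pow_right (by norm_num) he3
    _ = _ := hpe

/-- dimension three: `q + 1` or `q + 2` -/
theorem lin_three (h3 : 3 ≤ Fintype.card F) :
    LinOver 3 F (Fin (if Fintype.card F % 2 = 1 then Fintype.card F + 1 else Fintype.card F + 2)) := by
  classical
  by_cases hodd : Fintype.card F % 2 = 1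
  · rw [if_pos hodd]
    refine of_card (κ := Option F) ?_ (lin_odd ?_)
    · rw [Fintype.card_option]
    · intro h
      rw [two_eq_zero_iff] at h
      omega
  · rw [if_neg hodd]
    obtain ⟨b, hb0, hb1⟩ := exists_ne_two h3 (0 : F) 1
    refine of_card (κ := Option (Option F)) ?_ (lin_even ?_ hb0 hb1)
    · rw [Fintype.card_option, Fintype.card_option]
    · rw [two_eq_zero_iff]
      omega

/-- existence over all fields with at least `q` elements -/
theorem exists_value {m q : ℕ} (hm : 2 ≤ m) (hq2 : 2 ≤ q) (hq : q ≤ Fintype.card F) :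
    LinOver m F (Fin (value m q)) := by
  classical
  unfold value
  by_cases hm2 : m = 2
  · rw [if_pos hm2]
    subst hm2
    refine of_card (κ := {x : F // x ≠ 0}) ?_ lin_two
    have : Fintype.card {x : F // x ≠ 0} = Fintype.card F - 1 := by
      rw [Fintype.card_subtype_compl]
      simp
    rw [this]
    omega
  rw [if_neg hm2]
  by_cases hq2' : q = 2
  · rw [if_pos hq2']
    refine ⟨fun _ _ => 1, fun _ _ => one_ne_zero, ?_⟩
    intro f hf
    have := Fintype.card_le_of_injective f hf
    rw [Fintype.card_fin, Fintype.card_fin] at this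
    omega
  rw [if_neg hq2']
  by_cases hqm : q ≤ m
  · rw [if_pos hqm]
    exact lin_succ (by omega) (by omega)
  rw [if_neg hqm]
  have h4 : 4 ≤ Fintype.card F := by omega
  by_cases hm3 : m = 3
  · subst hm3
    have h3 := lin_three (F := F) (by omega)
    refine of_card (κ := Fin _) ?_ h3
    rw [Fintype.card_fin]
    split_ifs <;> omega
  have hm4 : 4 ≤ m := by omega
  split_ifs with h1
  · obtain ⟨heven, h1⟩ := h1
    have h1 : m + 1 = q := h1.resolve_left hm3
    rcases Nat.eq_or_lt_of_le hq with h2 | h2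
    · have h8 : 8 ≤ Fintype.card F := eight_le (by omega) (by omega)
      refine of_card (κ := Option (Option F)) ?_
        (lin_dual ((two_eq_zero_iff).2 (by omega)) h8 (by omega))
      rw [Fintype.card_option, Fintype.card_option, h2]
    · refine of_card (κ := Option F) ?_ (lin_rs hm4 h4)
      rw [Fintype.card_option]; omega
  · refine of_card (κ := Option F) ?_ (lin_rs hm4 h4)
    rw [Fintype.card_option]; omega

/-- the dimensions in which the value is determined -/
def Covered (m q : ℕ) : Prop :=
  m = 2 ∨ q ≤ m ∨ (q % 2 = 1 ∧ InRange q.minFac q m) ∨ (q % 2 = 0 ∧ (m = 3 ∨ q ≤ m + 2))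

/-- upper bounds over a field with `q` elements -/
theorem le_value {m k : ℕ} (hm : 2 ≤ m) (hc : Covered m (Fintype.card F))
    (h : LinOver m F (Fin k)) : k ≤ value m (Fintype.card F) := by
  classical
  have hF2 : 2 ≤ Fintype.card F := Fintype.one_lt_card
  have hpp : IsPrimePow (Fintype.card F) := FiniteField.isPrimePow_card F
  have hmem : ∃ C : Fin k → (Fin m → Fin (Fintype.card F)) → Fin (Fintype.card F),
      IsVariationalSet m (Fintype.card F) k C := by
    have := (mem_sizes_iff (R := F) (m := m) (k := k) (Nat.card_eq_fintype_card)).2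
      (unitSet_iff_linOver.2 h)
    obtain ⟨C, hC, -⟩ := this
    exact ⟨C, hC⟩
  obtain ⟨A, hA1, hA2⟩ := h
  unfold value
  by_cases hm2 : m = 2
  · rw [if_pos hm2]
    subst hm2
    exact upper_two A hA1 hA2
  rw [if_neg hm2]
  by_cases hq2' : Fintype.card F = 2
  · rw [if_pos hq2']
    exact upper_F2 hm hq2' A hA1 hA2
  rw [if_neg hq2']
  obtain ⟨C, hC⟩ := hmem
  by_cases hqm : Fintype.card F ≤ m
  · rw [if_pos hqm]
    exact IsArray.le_add_one hC.2 hF2 hqm
  rw [if_neg hqm]
  rcases hc with hc | hc | ⟨hodd, hr⟩ | ⟨heven, hc⟩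
  · exact absurd hc hm2
  · exact absurd hc hqm
  · rw [if_neg (by omega)]
    obtain ⟨p, hp⟩ := CharP.exists F
    obtain ⟨n, hpp', hn⟩ := FiniteField.card F p
    have hmf : (Fintype.card F).minFac = p := by
      rw [hn]; exact hpp'.pow_minFac n.pos.ne'
    rw [hmf] at hr
    have hp3 : 3 ≤ p := by
      rcases Nat.lt_or_ge p 3 with h | h
      · have : p = 2 := by have := hpp'.two_le; omega
        subst this
        have h2 : 2 ∣ Fintype.card F := by
          rw [hn]; exact dvd_pow_self 2 n.pos.ne'
        omega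
      · exact h
    exact upper_odd hp3 (by omega) (by omega) hr A hA2
  · by_cases hm1 : m + 1 = Fintype.card F
    · rw [if_pos ⟨heven, Or.inr hm1⟩]
      have h4 : 4 ≤ Fintype.card F := by omega
      have := (Pool.Agent.H625R3.PC.isPi_dual hpp h4 hm1).2 ⟨C, hC⟩
      rwa [if_neg (by omega)] at this
    · by_cases hm3 : m = 3
      · rw [if_pos ⟨heven, Or.inl hm3⟩]
        have := IsArray.le_general hC.2 hm hF2
        omega
      · rw [if_neg (by
          rintro ⟨-, h | h⟩
          · exact hm3 h
          · exact hm1 h)]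
        have h5 : m + 2 = Fintype.card F := by omega
        refine Pool.Agent.H625R3.PC.upper_two hC.2 h5 (by omega) heven ?_
        intro h3
        obtain ⟨p, e, hp, he, hpe⟩ := hpp
        have hp' := hp.nat_prime
        have h2p : 2 ∣ p ^ e := by rw [hpe]; exact Nat.dvd_of_mod_eq_zero heven
        have h3p : 3 ∣ p ^ e := by rw [hpe]; exact Nat.dvd_of_mod_eq_zero h3
        have e2 := (Nat.prime_dvd_prime_iff_eq Nat.prime_two hp').1
          (Nat.prime_two.dvd_of_dvd_pow h2p)
        have e3 := (Nat.prime_dvd_prime_iff_eq Nat.prime_three hp').1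
          (Nat.prime_three.dvd_of_dvd_pow h3p)
        omega

end

/-- the set of the orders of the residue fields -/
def ResidueOrders (R : Type) [CommRing R] : Set ℕ :=
  {c | ∃ M : Ideal R, M.IsMaximal ∧ Nat.card (R ⧸ M) = c}

/-- the reduction to the residue fields -/
theorem sizes_iff {m n k : ℕ} {R : Type} [CommRing R] [Finite R] (hn : Nat.card R = n) :
    k ∈ Sizes R m n ↔
      ∀ M : Ideal R, M.IsMaximal → k ∈ Sizes (R ⧸ M) m (Nat.card (R ⧸ M)) := by
  rw [mem_sizes_iff hn, unitSet_iff]
  refine forall_congr' fun M => forall_congr' fun _ => ?_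
  haveI : Finite (R ⧸ M) := Finite.of_surjective _ Ideal.Quotient.mk_surjective
  rw [mem_sizes_iff rfl]

/-- **The values.** -/
theorem isGreatest_value {m n q : ℕ} (hm : 2 ≤ m) {R : Type} [CommRing R] [Finite R]
    (hn : Nat.card R = n) (hq : IsLeast (ResidueOrders R) q) (hc : Covered m q) :
    IsGreatest (Sizes R m n) (value m q) := by
  classical
  have fin : ∀ M : Ideal R, Finite (R ⧸ M) := fun M =>
    Finite.of_surjective _ Ideal.Quotient.mk_surjective
  constructor
  · rw [mem_sizes_iff hn, unitSet_iff]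
    intro M hM
    haveI := fin M
    letI : Field (R ⧸ M) := Ideal.Quotient.field M
    letI : Fintype (R ⧸ M) := Fintype.ofFinite _
    have h1 : q ≤ Fintype.card (R ⧸ M) := by
      rw [← Nat.card_eq_fintype_card]
      exact hq.2 ⟨M, hM, rfl⟩
    have h2 : 2 ≤ q := by
      obtain ⟨M', hM', hcard⟩ := hq.1
      haveI := fin M'
      haveI : Nontrivial (R ⧸ M') := Ideal.Quotient.nontrivial_iff.2 hM'.ne_top
      rw [← hcard]
      exact Finite.one_lt_card
    exact unitSet_iff_linOver.2 (exists_value hm h2 h1)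
  · intro k hk
    rw [mem_sizes_iff hn, unitSet_iff] at hk
    obtain ⟨M, hM, hcard⟩ := hq.1
    haveI := fin M
    have h1 := hk M hM
    letI : Field (R ⧸ M) := Ideal.Quotient.field M
    letI : Fintype (R ⧸ M) := Fintype.ofFinite _
    have h2 : Fintype.card (R ⧸ M) = q := by
      rw [← Nat.card_eq_fintype_card]
      exact hcard
    subst h2
    exact le_value hm hc (unitSet_iff_linOver.1 h1)

end Pool.Agent.Y347.VL
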